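import Mathlib
import Pool.Agent.X132.RevG

/-!
# Proper fractional revival with eigenvalue classes that are not closed under conjugation
-/

namespace Pool.Agent.Results.MP_d93d44_co.NotConjugateClosed

open Matrix Complex Pool.Agent.X132.FR Pool.Agent.X132.Rev

variable {V : Type} [Fintype V] [DecidableEq V]

/-- Proper fractional revival on `{a, b}` at some positive time. -/
def ProperRevival (X : SimpleGraph V) [DecidableRel X.Adj] (a b : V) : Prop :=
  ∃ t : ℝ, 0 < t ∧ (∀ c : V, c ≠ a → c ≠ b → walk (X.adjMatrix ℂ) t a c = 0 ∧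
    walk (X.adjMatrix ℂ) t b c = 0) ∧ walk (X.adjMatrix ℂ) t a b ≠ 0

/-- The eigenvalues `θ` with `(E_θ)_{ab} > 0`. -/
def classPlus (X : SimpleGraph V) [DecidableRel X.Adj] (a b : V) : Set ℝ :=
  {θ | 0 < eproj (X.adjMatrix ℝ) θ a b}

/-- The eigenvalues `θ` with `(E_θ)_{ab} < 0`. -/
def classMinus (X : SimpleGraph V) [DecidableRel X.Adj] (a b : V) : Set ℝ :=
  {θ | eproj (X.adjMatrix ℝ) θ a b < 0}

/-- A set of real numbers that is closed under algebraic conjugates. -/
def ConjClosed (S : Set ℝ) : Prop :=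
  ∀ θ ∈ S, ∀ z : ℂ, Polynomial.aeval z (minpoly ℚ θ) = 0 → ∃ η ∈ S, (η : ℂ) = z

theorem column {A : Matrix V V ℂ} (hA : Aᵀ = A) {t : ℝ} {a b v : V} {α β : ℂ}
    (h : walk A t *ᵥ Pi.single v 1 = α • (Pi.single a 1 : V → ℂ) + β • (Pi.single b 1 : V → ℂ))
    (c : V) : walk A t v c = if c = a then α + (if c = b then β else 0) else
      if c = b then β else 0 := by
  have h1 := congrFun h c
  rw [Matrix.mulVec_single_one] at h1
  simp only [Matrix.col_apply, Pi.add_apply, Pi.smul_apply, smul_eq_mul] at h1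
  have h2 := congrFun (congrFun (walk_transpose hA t) v) c
  rw [Matrix.transpose_apply] at h2
  rw [← h2, h1]
  by_cases hca : c = a
  · subst hca
    by_cases hcb : c = b
    · subst hcb; simp
    · simp [hcb]
  · by_cases hcb : c = b
    · subst hcb; simp [hca]
    · simp [hca, hcb]

/-- **The classes `C⁺` and `C⁻` need not be closed under algebraic conjugates**: there is a finite
simple graph with two vertices `a`, `b` such that proper fractional revival occurs on `{a, b}` and
neither `C⁺` nor `C⁻` is closed under algebraic conjugates. -/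
theorem result : ∃ (V : Type) (_ : Fintype V) (_ : DecidableEq V) (X : SimpleGraph V)
    (_ : DecidableRel X.Adj) (a b : V), a ≠ b ∧ ProperRevival X a b ∧
      ¬ ConjClosed (classPlus X a b) ∧ ¬ ConjClosed (classMinus X a b) := by
  have hab : (Sum.inl false : Vert 121968 mB) ≠ Sum.inl true := by simp
  have hAT : (graphB.adjMatrix ℂ)ᵀ = graphB.adjMatrix ℂ := graphB.transpose_adjMatrix
  refine ⟨Vert 121968 mB, inferInstance, inferInstance, graphB, inferInstance, .inl false,
    .inl true, hab, ⟨timeB, timeB_pos, ?_, ?_⟩, ?_, ?_⟩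
  · intro c hca hcb
    constructor
    · rw [column hAT columnB_a, if_neg hca, if_neg hcb]
    · rw [column hAT columnB_b, if_neg hca, if_neg hcb]
  · rw [column hAT columnB_a, if_neg hab.symm, if_pos rfl]
    exact div_ne_zero (sub_ne_zero.2 omp_ne) (sub_ne_zero.2 gp_neC)
  · intro h
    obtain ⟨η, hη, hz⟩ := h (mid gp) entry_plus ((mid gm : ℝ) : ℂ)
      (conj_root (Or.inl ⟨mid_gp, mid_gm⟩))
    have : η = mid gm := by exact_mod_cast hz
    rw [this] at hη
    exact absurd hη (not_lt.2 entry_minus.le)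
  · intro h
    obtain ⟨η, hη, hz⟩ := h (mid gm) entry_minus ((mid gp : ℝ) : ℂ)
      (conj_root (Or.inr ⟨mid_gm, mid_gp⟩))
    have : η = mid gp := by exact_mod_cast hz
    rw [this] at hη
    exact absurd hη (not_lt.2 entry_plus.le)

end Pool.Agent.Results.MP_d93d44_co.NotConjugateClosed
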